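import Pool.Agent.Y914.Q440.Snd
import Pool.Agent.Y914.Q440.V0
import Pool.Agent.Y914.Q440.V1
import Pool.Agent.Y914.Q440.V2
import Pool.Agent.Y914.Q440.V3

/-! Representatives of the structures on seven points (helper914). -/

set_option autoImplicit false
set_option maxRecDepth 100000

namespace Pool.Agent.Y914.Q440

open Pool.Agent.Y440.A

section
variable {V : Type} (E : V → V → V → V → ℕ)

/-- code of the first six points -/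
def c6 (y : Fin 7 → V) : ℕ := cd E (y 0) (y 1) (y 2) (y 3) (y 4) (y 5)

/-- code of the last point -/
def f6 (y : Fin 7 → V) : ℕ := fl E (y 0) (y 1) (y 2) (y 3) (y 4) (y 5) (y 6)

theorem cd7_eq (y : Fin 7 → V) : cd7 E y = c6 E y + 1024 * f6 E y := rfl

variable {E}

theorem mod16 {a0 a1 a2 a3 a4 a5 a6 a7 a8 a9 : ℕ} (h0 : a0 ≤ 1) (h1 : a1 ≤ 1) (h2 : a2 ≤ 1)
    (h3 : a3 ≤ 1) : b10 a0 a1 a2 a3 a4 a5 a6 a7 a8 a9 % 16 = a0 + 2 * a1 + 4 * a2 + 8 * a3 := by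
  unfold b10
  omega

theorem div16 {a0 a1 a2 a3 a4 a5 a6 a7 a8 a9 : ℕ} (h0 : a0 ≤ 1) (h1 : a1 ≤ 1) (h2 : a2 ≤ 1)
    (h3 : a3 ≤ 1) : b10 a0 a1 a2 a3 a4 a5 a6 a7 a8 a9 / 16 =
      a4 + 2 * a5 + 4 * a6 + 8 * a7 + 16 * a8 + 32 * a9 := by
  unfold b10
  omega

theorem mod64 {a0 a1 a2 a3 a4 a5 a6 a7 a8 a9 : ℕ} (h0 : a0 ≤ 1) (h1 : a1 ≤ 1) (h2 : a2 ≤ 1)
    (h3 : a3 ≤ 1) (h4 : a4 ≤ 1) (h5 : a5 ≤ 1) : b10 a0 a1 a2 a3 a4 a5 a6 a7 a8 a9 % 64 =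
      a0 + 2 * a1 + 4 * a2 + 8 * a3 + 16 * a4 + 32 * a5 := by
  unfold b10
  omega

theorem div64 {a0 a1 a2 a3 a4 a5 a6 a7 a8 a9 : ℕ} (h0 : a0 ≤ 1) (h1 : a1 ≤ 1) (h2 : a2 ≤ 1)
    (h3 : a3 ≤ 1) (h4 : a4 ≤ 1) (h5 : a5 ≤ 1) : b10 a0 a1 a2 a3 a4 a5 a6 a7 a8 a9 / 64 =
      a6 + 2 * a7 + 4 * a8 + 8 * a9 := by
  unfold b10
  omega

/-- exchange of the points 5 and 6 -/
theorem swap56 (hE : Odd4 E) (y : Fin 7 → V) :
    cd7 E (y ∘ ⇑(Equiv.swap (5 : Fin 7) 6)) = c6 E y % 16 + 16 * (f6 E y % 64) +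
      1024 * (c6 E y / 16 + 64 * (f6 E y / 64)) := by
  have hb : ∀ a b c d, E a b c d ≤ 1 := by
    intro a b c d
    rcases hE.bt a b c d with h | h <;> omega
  have e : cd7 E (y ∘ ⇑(Equiv.swap (5 : Fin 7) 6)) =
      cd E (y 0) (y 1) (y 2) (y 3) (y 4) (y 6) +
        1024 * fl E (y 0) (y 1) (y 2) (y 3) (y 4) (y 6) (y 5) := rfl
  rw [e]
  unfold c6 f6 cd fl
  rw [mod16 (hb _ _ _ _) (hb _ _ _ _) (hb _ _ _ _) (hb _ _ _ _),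
    div16 (hb _ _ _ _) (hb _ _ _ _) (hb _ _ _ _) (hb _ _ _ _),
    mod64 (hb _ _ _ _) (hb _ _ _ _) (hb _ _ _ _) (hb _ _ _ _) (hb _ _ _ _) (hb _ _ _ _),
    div64 (hb _ _ _ _) (hb _ _ _ _) (hb _ _ _ _) (hb _ _ _ _) (hb _ _ _ _) (hb _ _ _ _),
    hE.s2 (y 0) (y 1) (y 5) (y 6), hE.s2 (y 0) (y 2) (y 5) (y 6), hE.s2 (y 0) (y 3) (y 5) (y 6),
    hE.s2 (y 0) (y 4) (y 5) (y 6)]
  unfold b10
  ring

variable (h : S_codes) (hE : Odd4 E)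

include h hE

theorem c6_lt (y : Fin 7 → V) : c6 E y < 1024 :=
  (h V E hE (y 0) (y 1) (y 2) (y 3) (y 4) (y 5)).1

theorem f6_lt (y : Fin 7 → V) : f6 E y < 1024 :=
  (h V E hE (y 0) (y 1) (y 2) (y 3) (y 4) (y 5)).2.1 _

/-- the letters -/
theorem letter (y : Fin 7 → V) (j : ℕ) (hj : j < 8) :
    ∃ π : Equiv.Perm (Fin 7), cd7 E (y ∘ π) = stp j (cd7 E y) := by
  have hc := c6_lt h hE y
  have hf := f6_lt h hE y
  obtain ⟨-, -, a0, b0, a1, b1, a2, b2, a3, b3, a4, b4⟩ :=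
    h V E hE (y 0) (y 1) (y 2) (y 3) (y 4) (y 5)
  rw [cd7_eq E y]
  interval_cases j
  · exact ⟨1, by rw [stp0 hc hf]; rfl⟩
  · refine ⟨Equiv.swap 0 1, ?_⟩
    rw [stp1 hc hf]
    have e : cd7 E (y ∘ ⇑(Equiv.swap (0 : Fin 7) 1)) =
      cd E (y 1) (y 0) (y 2) (y 3) (y 4) (y 5) +
        1024 * fl E (y 1) (y 0) (y 2) (y 3) (y 4) (y 5) (y 6) := rfl
    rw [e, a0, b0]
    rfl
  · refine ⟨Equiv.swap 1 2, ?_⟩
    rw [stp2 hc hf]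
    have e : cd7 E (y ∘ ⇑(Equiv.swap (1 : Fin 7) 2)) =
      cd E (y 0) (y 2) (y 1) (y 3) (y 4) (y 5) +
        1024 * fl E (y 0) (y 2) (y 1) (y 3) (y 4) (y 5) (y 6) := rfl
    rw [e, a1, b1]
    rfl
  · refine ⟨Equiv.swap 2 3, ?_⟩
    rw [stp3 hc hf]
    have e : cd7 E (y ∘ ⇑(Equiv.swap (2 : Fin 7) 3)) =
      cd E (y 0) (y 1) (y 3) (y 2) (y 4) (y 5) +
        1024 * fl E (y 0) (y 1) (y 3) (y 2) (y 4) (y 5) (y 6) := rfl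
    rw [e, a2, b2]
    rfl
  · refine ⟨Equiv.swap 3 4, ?_⟩
    rw [stp4 hc hf]
    have e : cd7 E (y ∘ ⇑(Equiv.swap (3 : Fin 7) 4)) =
      cd E (y 0) (y 1) (y 2) (y 4) (y 3) (y 5) +
        1024 * fl E (y 0) (y 1) (y 2) (y 4) (y 3) (y 5) (y 6) := rfl
    rw [e, a3, b3]
    rfl
  · refine ⟨Equiv.swap 4 5, ?_⟩
    rw [stp5 hc hf]
    have e : cd7 E (y ∘ ⇑(Equiv.swap (4 : Fin 7) 5)) =
      cd E (y 0) (y 1) (y 2) (y 3) (y 5) (y 4) +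
        1024 * fl E (y 0) (y 1) (y 2) (y 3) (y 5) (y 4) (y 6) := rfl
    rw [e, a4, b4]
    rfl
  · refine ⟨Equiv.swap 5 6, ?_⟩
    rw [stp6 hc hf, swap56 hE]
  · exact ⟨1, by rw [stp7 hc hf]; rfl⟩

/-- the letters on the codes of six points -/
theorem letter6 (y : Fin 7 → V) (j : ℕ) (hj : j < 8) :
    ∃ π : Equiv.Perm (Fin 7), c6 E (y ∘ π) =
      bc (Nat.beq j 6) (c6 E y) (Nat.land (lo j (c6 E y)) 1023) := by
  have hc := c6_lt h hE y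
  obtain ⟨-, -, a0, b0, a1, b1, a2, b2, a3, b3, a4, b4⟩ :=
    h V E hE (y 0) (y 1) (y 2) (y 3) (y 4) (y 5)
  interval_cases j
  · refine ⟨1, ?_⟩
    show c6 E y = Nat.land (lo 0 (c6 E y)) 1023
    rw [lo0 _ hc, land_mod, Nat.mod_eq_of_lt hc]
  · refine ⟨Equiv.swap 0 1, ?_⟩
    show _ = Nat.land (lo 1 (c6 E y)) 1023
    rw [lo1 _ hc, land_mod]
    have e : c6 E (y ∘ ⇑(Equiv.swap (0 : Fin 7) 1)) =
      cd E (y 1) (y 0) (y 2) (y 3) (y 4) (y 5) := rfl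
    have e2 := C0_lt (c6 E y)
    rw [e, a0]
    show C0 (c6 E y) = _
    omega
  · refine ⟨Equiv.swap 1 2, ?_⟩
    show _ = Nat.land (lo 2 (c6 E y)) 1023
    have e : c6 E (y ∘ ⇑(Equiv.swap (1 : Fin 7) 2)) =
      cd E (y 0) (y 2) (y 1) (y 3) (y 4) (y 5) := rfl
    have e2 := c6_lt h hE (y ∘ ⇑(Equiv.swap (1 : Fin 7) 2))
    rw [e, a1] at e2
    rw [lo2 _ hc, land_mod, e, a1]
    exact (Nat.mod_eq_of_lt e2).symm
  · refine ⟨Equiv.swap 2 3, ?_⟩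
    show _ = Nat.land (lo 3 (c6 E y)) 1023
    have e : c6 E (y ∘ ⇑(Equiv.swap (2 : Fin 7) 3)) =
      cd E (y 0) (y 1) (y 3) (y 2) (y 4) (y 5) := rfl
    have e2 := c6_lt h hE (y ∘ ⇑(Equiv.swap (2 : Fin 7) 3))
    rw [e, a2] at e2
    rw [lo3 _ hc, land_mod, e, a2]
    exact (Nat.mod_eq_of_lt e2).symm
  · refine ⟨Equiv.swap 3 4, ?_⟩
    show _ = Nat.land (lo 4 (c6 E y)) 1023
    have e : c6 E (y ∘ ⇑(Equiv.swap (3 : Fin 7) 4)) =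
      cd E (y 0) (y 1) (y 2) (y 4) (y 3) (y 5) := rfl
    have e2 := c6_lt h hE (y ∘ ⇑(Equiv.swap (3 : Fin 7) 4))
    rw [e, a3] at e2
    rw [lo4 _ hc, land_mod, e, a3]
    exact (Nat.mod_eq_of_lt e2).symm
  · refine ⟨Equiv.swap 4 5, ?_⟩
    show _ = Nat.land (lo 5 (c6 E y)) 1023
    have e : c6 E (y ∘ ⇑(Equiv.swap (4 : Fin 7) 5)) =
      cd E (y 0) (y 1) (y 2) (y 3) (y 5) (y 4) := rfl
    have e2 := c6_lt h hE (y ∘ ⇑(Equiv.swap (4 : Fin 7) 5))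
    rw [e, a4] at e2
    rw [lo5 _ hc, land_mod, e, a4]
    exact (Nat.mod_eq_of_lt e2).symm
  · exact ⟨1, rfl⟩
  · refine ⟨1, ?_⟩
    show c6 E y = Nat.land (lo 7 (c6 E y)) 1023
    rw [lo7 _ hc, land_mod, Nat.mod_eq_of_lt hc]

/-- words -/
theorem word (fuel : ℕ) : ∀ (w : ℕ) (y : Fin 7 → V),
    ∃ π : Equiv.Perm (Fin 7), cd7 E (y ∘ π) = run fuel w (cd7 E y) := by
  induction fuel with
  | zero => exact fun w y => ⟨1, rfl⟩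
  | succ k ih =>
    intro w y
    have e : run (k + 1) w (cd7 E y) = bc (Nat.beq w 0) (cd7 E y)
      (st (fun v => st (fun m => run k v m) (st (fun j => stp j (cd7 E y)) (Nat.land w 7)))
        (Nat.shiftRight w 3)) := rfl
    rw [e]
    cases Nat.beq w 0 with
    | true => exact ⟨1, rfl⟩
    | false =>
      show ∃ π : Equiv.Perm (Fin 7), cd7 E (y ∘ π) =
        st (fun v => st (fun m => run k v m) (st (fun j => stp j (cd7 E y)) (Nat.land w 7)))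
          (Nat.shiftRight w 3)
      rw [st_eq, st_eq, st_eq]
      have h8 : Nat.land w 7 < 8 := lt_of_le_of_lt (Nat.and_le_right (n := w) (m := 7)) (by norm_num)
      obtain ⟨π₁, h1⟩ := letter h hE y _ h8
      obtain ⟨π₂, h2⟩ := ih (Nat.shiftRight w 3) (y ∘ π₁)
      refine ⟨π₁ * π₂, ?_⟩
      rw [← h1, ← h2]
      rfl

/-- words on the codes of six points -/
theorem word6 (fuel : ℕ) : ∀ (w : ℕ) (y : Fin 7 → V),
    ∃ π : Equiv.Perm (Fin 7), c6 E (y ∘ π) = runc fuel w (c6 E y) := by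
  induction fuel with
  | zero => exact fun w y => ⟨1, rfl⟩
  | succ k ih =>
    intro w y
    have e : runc (k + 1) w (c6 E y) = bc (Nat.beq w 0) (c6 E y)
      (st (fun v => st (fun m => runc k v m)
        (st (fun j => bc (Nat.beq j 6) (c6 E y) (Nat.land (lo j (c6 E y)) 1023)) (Nat.land w 7)))
        (Nat.shiftRight w 3)) := rfl
    rw [e]
    cases Nat.beq w 0 with
    | true => exact ⟨1, rfl⟩
    | false =>
      show ∃ π : Equiv.Perm (Fin 7), c6 E (y ∘ π) =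
        st (fun v => st (fun m => runc k v m)
          (st (fun j => bc (Nat.beq j 6) (c6 E y) (Nat.land (lo j (c6 E y)) 1023)) (Nat.land w 7)))
          (Nat.shiftRight w 3)
      rw [st_eq, st_eq, st_eq]
      have h8 : Nat.land w 7 < 8 := lt_of_le_of_lt (Nat.and_le_right (n := w) (m := 7)) (by norm_num)
      obtain ⟨π₁, h1⟩ := letter6 h hE y _ h8
      obtain ⟨π₂, h2⟩ := ih (Nat.shiftRight w 3) (y ∘ π₁)
      refine ⟨π₁ * π₂, ?_⟩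
      rw [← h1, ← h2]
      rfl

end

theorem ck_all : ∀ c ∈ L16, ∃ W, ck W c = true := by
  intro c hc
  simp only [L16, List.mem_cons, List.not_mem_nil, or_false] at hc
  rcases hc with rfl | rfl | rfl | rfl | rfl | rfl | rfl | rfl | rfl | rfl | rfl | rfl | rfl |
    rfl | rfl | rfl
  · exact ⟨_, ck0⟩
  · exact ⟨_, ck1⟩
  · exact ⟨_, ck2⟩
  · exact ⟨_, ck3⟩
  · exact ⟨_, ck4⟩
  · exact ⟨_, ck5⟩
  · exact ⟨_, ck6⟩
  · exact ⟨_, ck7⟩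
  · exact ⟨_, ck8⟩
  · exact ⟨_, ck9⟩
  · exact ⟨_, ck10⟩
  · exact ⟨_, ck11⟩
  · exact ⟨_, ck12⟩
  · exact ⟨_, ck13⟩
  · exact ⟨_, ck14⟩
  · exact ⟨_, ck15⟩

theorem t (h : S_codes) : S_reps := by
  intro V E hE y
  obtain ⟨π₁, h1⟩ := word6 h hE 13 (lv W6 (c6 E y)) y
  have h2 := w6_mem _ (c6_lt h hE y)
  rw [← h1] at h2
  obtain ⟨W, hW⟩ := ck_all _ h2
  have h3 := al_iff _ _ hW _ (f6_lt h hE (y ∘ π₁))
  rw [st_eq] at h3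
  have h4 := Nat.eq_of_beq_eq_true h3
  obtain ⟨π₂, h5⟩ := word h hE 21 (Nat.shiftRight (lw W (f6 E (y ∘ π₁))) 9) (y ∘ π₁)
  refine ⟨π₁ * π₂, ?_⟩
  have h6 : cd7 E (y ∘ ⇑(π₁ * π₂)) = lk RT (Nat.land (lw W (f6 E (y ∘ π₁))) 511) := by
    rw [← h4]
    exact h5
  rw [h6]
  exact rt_mem _ (lt_of_le_of_lt (Nat.and_le_right (m := 511)) (by norm_num))

end Pool.Agent.Y914.Q440
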