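import Pool.Agent.Y914.Q440.Tab

/-! Representatives of the structures on seven points: the actions of the letters (helper914). -/

set_option autoImplicit false
set_option maxRecDepth 100000

namespace Pool.Agent.Y914.Q440

open Pool.Agent.Y440.A

/-! ### Checks of the tables -/

theorem lo0 : ∀ c < 1024, lo 0 c = c := by
  have h : al 1024 (fun c => Nat.beq (lo 0 c) c) = true := by decide +kernel
  exact fun c hc => Nat.eq_of_beq_eq_true (al_iff _ _ h c hc)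
theorem lo7 : ∀ c < 1024, lo 7 c = c := by
  have h : al 1024 (fun c => Nat.beq (lo 7 c) c) = true := by decide +kernel
  exact fun c hc => Nat.eq_of_beq_eq_true (al_iff _ _ h c hc)
theorem lo1 : ∀ c < 1024, lo 1 c = C0 c + 1024 * F0 c 0 := by
  have h : al 1024 (fun c => Nat.beq (lo 1 c) (C0 c + 1024 * F0 c 0)) = true := by decide +kernel
  exact fun c hc => Nat.eq_of_beq_eq_true (al_iff _ _ h c hc)
theorem lo2 : ∀ c < 1024, lo 2 c = C1 c := by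
  have h : al 1024 (fun c => Nat.beq (lo 2 c) (C1 c)) = true := by decide +kernel
  exact fun c hc => Nat.eq_of_beq_eq_true (al_iff _ _ h c hc)
theorem lo3 : ∀ c < 1024, lo 3 c = C2 c := by
  have h : al 1024 (fun c => Nat.beq (lo 3 c) (C2 c)) = true := by decide +kernel
  exact fun c hc => Nat.eq_of_beq_eq_true (al_iff _ _ h c hc)
theorem lo4 : ∀ c < 1024, lo 4 c = C3 c := by
  have h : al 1024 (fun c => Nat.beq (lo 4 c) (C3 c)) = true := by decide +kernel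
  exact fun c hc => Nat.eq_of_beq_eq_true (al_iff _ _ h c hc)
theorem lo5 : ∀ c < 1024, lo 5 c = C4 c := by
  have h : al 1024 (fun c => Nat.beq (lo 5 c) (C4 c)) = true := by decide +kernel
  exact fun c hc => Nat.eq_of_beq_eq_true (al_iff _ _ h c hc)
theorem lo6 : ∀ c < 1024, lo 6 c = c % 16 + 1024 * (c / 16) := by
  have h : al 1024 (fun c => Nat.beq (lo 6 c) (c % 16 + 1024 * (c / 16))) = true := by
    decide +kernel
  exact fun c hc => Nat.eq_of_beq_eq_true (al_iff _ _ h c hc)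
theorem hi0 : ∀ c < 1024, hi 0 c = 1024 * c := by
  have h : al 1024 (fun c => Nat.beq (hi 0 c) (1024 * c)) = true := by decide +kernel
  exact fun c hc => Nat.eq_of_beq_eq_true (al_iff _ _ h c hc)
theorem hi7 : ∀ c < 1024, hi 7 c = 1024 * c := by
  have h : al 1024 (fun c => Nat.beq (hi 7 c) (1024 * c)) = true := by decide +kernel
  exact fun c hc => Nat.eq_of_beq_eq_true (al_iff _ _ h c hc)
theorem hi1 : ∀ c < 1024, hi 1 c = 1024 * (F0 0 c ^^^ F0 0 0) := by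
  have h : al 1024 (fun c => Nat.beq (hi 1 c) (1024 * (F0 0 c ^^^ F0 0 0))) = true := by
    decide +kernel
  exact fun c hc => Nat.eq_of_beq_eq_true (al_iff _ _ h c hc)
theorem hi2 : ∀ c < 1024, hi 2 c = 1024 * F1 0 c := by
  have h : al 1024 (fun c => Nat.beq (hi 2 c) (1024 * F1 0 c)) = true := by decide +kernel
  exact fun c hc => Nat.eq_of_beq_eq_true (al_iff _ _ h c hc)
theorem hi3 : ∀ c < 1024, hi 3 c = 1024 * F2 0 c := by
  have h : al 1024 (fun c => Nat.beq (hi 3 c) (1024 * F2 0 c)) = true := by decide +kernel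
  exact fun c hc => Nat.eq_of_beq_eq_true (al_iff _ _ h c hc)
theorem hi4 : ∀ c < 1024, hi 4 c = 1024 * F3 0 c := by
  have h : al 1024 (fun c => Nat.beq (hi 4 c) (1024 * F3 0 c)) = true := by decide +kernel
  exact fun c hc => Nat.eq_of_beq_eq_true (al_iff _ _ h c hc)
theorem hi5 : ∀ c < 1024, hi 5 c = 1024 * F4 0 c := by
  have h : al 1024 (fun c => Nat.beq (hi 5 c) (1024 * F4 0 c)) = true := by decide +kernel
  exact fun c hc => Nat.eq_of_beq_eq_true (al_iff _ _ h c hc)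
theorem hi6 : ∀ c < 1024, hi 6 c = 16 * (c % 64) + 65536 * (c / 64) := by
  have h : al 1024 (fun c => Nat.beq (hi 6 c) (16 * (c % 64) + 65536 * (c / 64))) = true := by
    decide +kernel
  exact fun c hc => Nat.eq_of_beq_eq_true (al_iff _ _ h c hc)

/-- the codes of the representatives of the structures on six points -/
def L16 : List ℕ := [0, 1, 3, 19, 20, 21, 23, 54, 55, 126, 127, 183, 207, 220, 221, 1023]

theorem w6_mem : ∀ c < 1024, runc 13 (lv W6 c) c ∈ L16 := by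
  have h : al 1024 (fun c => decide (runc 13 (lv W6 c) c ∈ L16)) = true := by decide +kernel
  exact fun c hc => of_decide_eq_true (al_iff _ _ h c hc)

theorem rt_mem : ∀ k < 512, lk RT k ∈ reps := by
  have h : al 512 (fun k => decide (lk RT k ∈ reps)) = true := by decide +kernel
  exact fun c hc => of_decide_eq_true (al_iff _ _ h c hc)

/-! ### Sums modulo two -/

theorem xor_split (i a a' b b' : ℕ) (ha : a < 2 ^ i) (ha' : a' < 2 ^ i) :
    (a + 2 ^ i * b) ^^^ (a' + 2 ^ i * b') = (a ^^^ a') + 2 ^ i * (b ^^^ b') := by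
  have hx : a ^^^ a' < 2 ^ i := Nat.xor_lt_two_pow ha ha'
  apply Nat.eq_of_testBit_eq
  intro j
  rw [Nat.testBit_xor, add_comm a, add_comm a', add_comm (a ^^^ a'),
    Nat.testBit_two_pow_mul_add _ ha, Nat.testBit_two_pow_mul_add _ ha',
    Nat.testBit_two_pow_mul_add _ hx]
  split_ifs
  · rw [Nat.testBit_xor]
  · rw [Nat.testBit_xor]

theorem xor_bit {a b : ℕ} (ha : a ≤ 1) (hb : b ≤ 1) : a ^^^ b = (a + b) % 2 := by
  interval_cases a <;> interval_cases b <;> rfl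

theorem xor_bit2 {a b : ℕ} (ha : a ≤ 1) (hb : b ≤ 1) (A B : ℕ) :
    (a + 2 * A) ^^^ (b + 2 * B) = (a + b) % 2 + 2 * (A ^^^ B) := by
  have h := xor_split 1 a b A B (by omega) (by omega)
  rw [pow_one] at h
  rw [h, xor_bit ha hb]

theorem b10_xor {a0 a1 a2 a3 a4 a5 a6 a7 a8 a9 c0 c1 c2 c3 c4 c5 c6 c7 c8 c9 : ℕ}
    (h0 : a0 ≤ 1) (h1 : a1 ≤ 1) (h2 : a2 ≤ 1) (h3 : a3 ≤ 1) (h4 : a4 ≤ 1) (h5 : a5 ≤ 1)
    (h6 : a6 ≤ 1) (h7 : a7 ≤ 1) (h8 : a8 ≤ 1) (h9 : a9 ≤ 1)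
    (k0 : c0 ≤ 1) (k1 : c1 ≤ 1) (k2 : c2 ≤ 1) (k3 : c3 ≤ 1) (k4 : c4 ≤ 1) (k5 : c5 ≤ 1)
    (k6 : c6 ≤ 1) (k7 : c7 ≤ 1) (k8 : c8 ≤ 1) (k9 : c9 ≤ 1) :
    b10 a0 a1 a2 a3 a4 a5 a6 a7 a8 a9 ^^^ b10 c0 c1 c2 c3 c4 c5 c6 c7 c8 c9 =
      b10 ((a0 + c0) % 2) ((a1 + c1) % 2) ((a2 + c2) % 2) ((a3 + c3) % 2) ((a4 + c4) % 2)
        ((a5 + c5) % 2) ((a6 + c6) % 2) ((a7 + c7) % 2) ((a8 + c8) % 2) ((a9 + c9) % 2) := by
  unfold b10
  rw [xor_bit2 h0 k0, xor_bit2 h1 k1, xor_bit2 h2 k2, xor_bit2 h3 k3, xor_bit2 h4 k4,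
    xor_bit2 h5 k5, xor_bit2 h6 k6, xor_bit2 h7 k7, xor_bit2 h8 k8, xor_bit h9 k9]

theorem b10_eq {a0 a1 a2 a3 a4 a5 a6 a7 a8 a9 c0 c1 c2 c3 c4 c5 c6 c7 c8 c9 : ℕ}
    (h0 : a0 = c0) (h1 : a1 = c1) (h2 : a2 = c2) (h3 : a3 = c3) (h4 : a4 = c4) (h5 : a5 = c5)
    (h6 : a6 = c6) (h7 : a7 = c7) (h8 : a8 = c8) (h9 : a9 = c9) :
    b10 a0 a1 a2 a3 a4 a5 a6 a7 a8 a9 = b10 c0 c1 c2 c3 c4 c5 c6 c7 c8 c9 := by
  rw [h0, h1, h2, h3, h4, h5, h6, h7, h8, h9]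

theorem b10_lt {a0 a1 a2 a3 a4 a5 a6 a7 a8 a9 : ℕ}
    (h0 : a0 ≤ 1) (h1 : a1 ≤ 1) (h2 : a2 ≤ 1) (h3 : a3 ≤ 1) (h4 : a4 ≤ 1) (h5 : a5 ≤ 1)
    (h6 : a6 ≤ 1) (h7 : a7 ≤ 1) (h8 : a8 ≤ 1) (h9 : a9 ≤ 1) :
    b10 a0 a1 a2 a3 a4 a5 a6 a7 a8 a9 < 1024 := by
  unfold b10
  omega

theorem bt_le (k c : ℕ) : bt k c ≤ 1 := by
  unfold bt
  omega

theorem bt_zero (k : ℕ) : bt k 0 = 0 := by
  unfold bt
  rw [Nat.zero_div]

theorem F0_xor (c f : ℕ) : F0 c 0 ^^^ (F0 0 f ^^^ F0 0 0) = F0 c f := by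
  unfold F0
  simp only [bt_zero]
  have h0 := bt_le 0 f
  have h1 := bt_le 1 f
  have h3 := bt_le 3 f
  have h6 := bt_le 6 f
  rw [b10_xor (by omega) (by omega) (by omega) (by omega) (by omega) (by omega) (by omega)
    (by omega) (by omega) (by omega) (by omega) (by omega) (by omega) (by omega) (by omega)
    (by omega) (by omega) (by omega) (by omega) (by omega)]
  rw [b10_xor (by omega) (by omega) (by omega) (by omega) (by omega) (by omega) (by omega)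
    (by omega) (by omega) (by omega) (by omega) (by omega) (by omega) (by omega) (by omega)
    (by omega) (by omega) (by omega) (by omega) (by omega)]
  refine b10_eq ?_ ?_ ?_ ?_ ?_ ?_ ?_ ?_ ?_ ?_ <;> omega

theorem C0_lt (c : ℕ) : C0 c < 1024 := by
  unfold C0
  exact b10_lt (bt_le _ _) (bt_le _ _) (bt_le _ _) (by omega) (bt_le _ _) (bt_le _ _) (by omega)
    (bt_le _ _) (by omega) (by omega)

/-! ### The letters -/

theorem land_mod (n : ℕ) : Nat.land n 1023 = n % 1024 := Nat.and_two_pow_sub_one_eq_mod n 10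

theorem shr_div (n : ℕ) : Nat.shiftRight n 10 = n / 1024 := Nat.shiftRight_eq_div_pow n 10

theorem stp_eq (j : ℕ) {c f : ℕ} (hc : c < 1024) : stp j (c + 1024 * f) =
    cm j (lo j c) (hi j f) := by
  unfold stp
  rw [st_eq, st_eq, land_mod, shr_div, show (c + 1024 * f) % 1024 = c by omega,
    show (c + 1024 * f) / 1024 = f by omega]

theorem stp1 {c f : ℕ} (hc : c < 1024) (hf : f < 1024) :
    stp 1 (c + 1024 * f) = C0 c + 1024 * F0 c f := by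
  rw [stp_eq 1 hc, lo1 c hc, hi1 f hf]
  show (C0 c + 1024 * F0 c 0) ^^^ (1024 * (F0 0 f ^^^ F0 0 0)) = _
  have h := xor_split 10 (C0 c) 0 (F0 c 0) (F0 0 f ^^^ F0 0 0) (C0_lt c) (by norm_num)
  norm_num at h
  rw [h, F0_xor]

theorem stp2 {c f : ℕ} (hc : c < 1024) (hf : f < 1024) :
    stp 2 (c + 1024 * f) = C1 c + 1024 * F1 c f := by
  rw [stp_eq 2 hc, lo2 c hc, hi2 f hf]
  rfl

theorem stp3 {c f : ℕ} (hc : c < 1024) (hf : f < 1024) :
    stp 3 (c + 1024 * f) = C2 c + 1024 * F2 c f := by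
  rw [stp_eq 3 hc, lo3 c hc, hi3 f hf]
  rfl

theorem stp4 {c f : ℕ} (hc : c < 1024) (hf : f < 1024) :
    stp 4 (c + 1024 * f) = C3 c + 1024 * F3 c f := by
  rw [stp_eq 4 hc, lo4 c hc, hi4 f hf]
  rfl

theorem stp5 {c f : ℕ} (hc : c < 1024) (hf : f < 1024) :
    stp 5 (c + 1024 * f) = C4 c + 1024 * F4 c f := by
  rw [stp_eq 5 hc, lo5 c hc, hi5 f hf]
  rfl

theorem stp6 {c f : ℕ} (hc : c < 1024) (hf : f < 1024) :
    stp 6 (c + 1024 * f) = c % 16 + 16 * (f % 64) + 1024 * (c / 16 + 64 * (f / 64)) := by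
  rw [stp_eq 6 hc, lo6 c hc, hi6 f hf]
  show (c % 16 + 1024 * (c / 16)) + (16 * (f % 64) + 65536 * (f / 64)) = _
  ring

theorem stp0 {c f : ℕ} (hc : c < 1024) (hf : f < 1024) : stp 0 (c + 1024 * f) = c + 1024 * f := by
  rw [stp_eq 0 hc, lo0 c hc, hi0 f hf]
  rfl

theorem stp7 {c f : ℕ} (hc : c < 1024) (hf : f < 1024) : stp 7 (c + 1024 * f) = c + 1024 * f := by
  rw [stp_eq 7 hc, lo7 c hc, hi7 f hf]
  rfl

end Pool.Agent.Y914.Q440
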